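import Pool.Agent.N993.RK.Stm

set_option autoImplicit false
set_option linter.unusedSectionVars false

/-! Project RK, part GEN: the unitary group `SU_3(5)` is generated by unipotent elements (helper901). -/

namespace Pool.Agent.N901.RK

open Matrix
open Pool.Agent.N993.RK

section

variable {k : Type} [Field k] [CharP k 5]

/-- matrices given by their entries -/
def m3 (a b c d e f g h i : k) : M3 k := !![a, b, c; d, e, f; g, h, i]

theorem m3_mul (a b c d e f g h i a' b' c' d' e' f' g' h' i' : k) :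
    m3 a b c d e f g h i * m3 a' b' c' d' e' f' g' h' i' =
      m3 (a * a' + b * d' + c * g') (a * b' + b * e' + c * h') (a * c' + b * f' + c * i')
        (d * a' + e * d' + f * g') (d * b' + e * e' + f * h') (d * c' + e * f' + f * i')
        (g * a' + h * d' + i * g') (g * b' + h * e' + i * h') (g * c' + h * f' + i * i') :=
  Matrix.mul_fin_three _ _ _ _ _ _ _ _ _ _ _ _ _ _ _ _ _ _

theorem m3_one : (1 : M3 k) = m3 1 0 0 0 1 0 0 0 1 := Matrix.one_fin_three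

theorem m3_eta (M : M3 k) : ∃ a b c d e f g h i, M = m3 a b c d e f g h i :=
  ⟨_, _, _, _, _, _, _, _, _, Matrix.eta_fin_three M⟩

theorem m3_ct (a b c d e f g h i : k) : ct 1 (m3 a b c d e f g h i) =
    m3 (a ^ 5) (d ^ 5) (g ^ 5) (b ^ 5) (e ^ 5) (h ^ 5) (c ^ 5) (f ^ 5) (i ^ 5) := by
  ext x y
  rw [ct_apply]
  fin_cases x <;> fin_cases y <;> rfl

theorem m3_det (a b c d e f g h i : k) : (m3 a b c d e f g h i).det =
    a * e * i - a * f * h - b * d * i + b * f * g + c * d * h - c * e * g := by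
  rw [Matrix.det_fin_three]
  rfl

theorem m3_inj {a b c d e f g h i a' b' c' d' e' f' g' h' i' : k}
    (H : m3 a b c d e f g h i = m3 a' b' c' d' e' f' g' h' i') :
    a = a' ∧ b = b' ∧ c = c' ∧ d = d' ∧ e = e' ∧ f = f' ∧ g = g' ∧ h = h' ∧ i = i' :=
  ⟨congrFun (congrFun H 0) 0, congrFun (congrFun H 0) 1, congrFun (congrFun H 0) 2,
    congrFun (congrFun H 1) 0, congrFun (congrFun H 1) 1, congrFun (congrFun H 1) 2,
    congrFun (congrFun H 2) 0, congrFun (congrFun H 2) 1, congrFun (congrFun H 2) 2⟩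

theorem m3_ext {a b c d e f g h i a' b' c' d' e' f' g' h' i' : k}
    (h1 : a = a') (h2 : b = b') (h3 : c = c') (h4 : d = d') (h5 : e = e') (h6 : f = f')
    (h7 : g = g') (h8 : h = h') (h9 : i = i') :
    m3 a b c d e f g h i = m3 a' b' c' d' e' f' g' h' i' := by
  rw [h1, h2, h3, h4, h5, h6, h7, h8, h9]

theorem C_eq : C k = m3 1 3 0 2 4 0 0 0 1 := rfl

theorem Ci_eq : Ci k = m3 3 4 0 1 2 0 0 0 1 := rfl

theorem NU_eq (a b : k) : NU 1 a b = m3 1 b (-a ^ 5) 0 1 0 0 a 1 := by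
  unfold NU m3
  rw [pow_one]

/-- the form in the isotropic basis -/
def J : M3 k := m3 0 1 0 1 0 0 0 0 1

theorem five : (5 : k) = 0 := by
  have h := CharP.cast_eq_zero k 5
  exact_mod_cast h

theorem CCi : C k * Ci k = 1 := by
  have h := five (k := k)
  rw [C_eq, Ci_eq, m3_mul, m3_one]
  apply m3_ext <;> first | ring1 | linear_combination h | linear_combination 2 * h | linear_combination 3 * h

theorem CiC : Ci k * C k = 1 := mul_eq_one_comm.1 CCi

theorem ctC : ct 1 (C k) * C k = J := by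
  have h := five (k := k)
  rw [C_eq, m3_ct, m3_mul, J]
  apply m3_ext <;>
    first
    | ring1
    | linear_combination 13 * h
    | linear_combination 26 * h
    | linear_combination 458 * h
    | linear_combination 965 * h

theorem ctCi : ct 1 (Ci k) * J * Ci k = 1 := by
  calc ct 1 (Ci k) * J * Ci k = ct 1 (Ci k) * (ct 1 (C k) * C k) * Ci k := by rw [ctC]
    _ = (ct 1 (Ci k) * ct 1 (C k)) * (C k * Ci k) := by simp only [Matrix.mul_assoc]
    _ = 1 := by rw [← ct_mul, CCi, ct_one, Matrix.mul_one]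

/-- unitary matrices in the isotropic basis -/
def InJ (M : M3 k) : Prop := ct 1 M * J * M = J ∧ M.det = 1

theorem InJ.mul {M M' : M3 k} (h : InJ M) (h' : InJ M') : InJ (M * M') := by
  refine ⟨?_, ?_⟩
  · calc ct 1 (M * M') * J * (M * M') = ct 1 M' * (ct 1 M * J * M) * M' := by
          rw [ct_mul]
          simp only [Matrix.mul_assoc]
      _ = J := by rw [h.1, h'.1]
  · rw [Matrix.det_mul, h.2, h'.2, one_mul]

theorem detC : (C k).det * (Ci k).det = 1 := by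
  rw [← Matrix.det_mul, CCi, Matrix.det_one]

/-- the element with a given matrix -/
def mkH (M : M3 k) (h : InJ M) : H0 k :=
  ⟨⟨C k * M * Ci k, by
    rw [Matrix.det_mul, Matrix.det_mul, h.2, mul_one, detC]⟩, by
    show C k * M * Ci k * ct 1 (C k * M * Ci k) = 1
    rw [mul_eq_one_comm]
    calc ct 1 (C k * M * Ci k) * (C k * M * Ci k) =
        ct 1 (Ci k) * (ct 1 M * (ct 1 (C k) * C k) * M) * Ci k := by
          rw [ct_mul, ct_mul]
          simp only [Matrix.mul_assoc]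
      _ = 1 := by rw [ctC, h.1, ctCi]⟩

theorem mt_mkH (M : M3 k) (h : InJ M) : mt (mkH M h).1 = C k * M * Ci k := rfl

theorem of_H0 (g : H0 k) : InJ (Ci k * mt g.1 * C k) := by
  have hg : mt g.1 * ct 1 (mt g.1) = 1 := g.2
  have h1 : (mt g.1).det = 1 := g.1.2
  generalize (mt g.1 : M3 k) = A at hg h1 ⊢
  refine ⟨?_, ?_⟩
  · calc ct 1 (Ci k * A * C k) * J * (Ci k * A * C k) =
        ct 1 (C k) * (ct 1 A * (ct 1 (Ci k) * J * Ci k) * A) * C k := by
          rw [ct_mul, ct_mul]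
          simp only [Matrix.mul_assoc]
      _ = J := by rw [ctCi, Matrix.mul_one, mul_eq_one_comm.1 hg, Matrix.mul_one, ctC]
  · rw [Matrix.det_mul, Matrix.det_mul, h1, mul_one, mul_comm, detC]

theorem CM_inj {M M' : M3 k} (h : C k * M * Ci k = C k * M' * Ci k) : M = M' := by
  have h1 : ∀ M : M3 k, Ci k * (C k * M * Ci k) * C k = M := by
    intro M
    calc Ci k * (C k * M * Ci k) * C k = (Ci k * C k) * M * (Ci k * C k) := by
          simp only [Matrix.mul_assoc]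
      _ = M := by rw [CiC, Matrix.one_mul, Matrix.mul_one]
  rw [← h1 M, h, h1]

theorem CM_mul (M M' : M3 k) : C k * M * Ci k * (C k * M' * Ci k) = C k * (M * M') * Ci k := by
  calc C k * M * Ci k * (C k * M' * Ci k) = C k * M * (Ci k * C k) * M' * Ci k := by
        simp only [Matrix.mul_assoc]
    _ = C k * (M * M') * Ci k := by
        rw [CiC, Matrix.mul_one]
        simp only [Matrix.mul_assoc]

/-- the generators -/
def Gs (k : Type) [Field k] [CharP k 5] : Set (H0 k) :=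
  {g : H0 k | ∃ a b : k, b + b ^ 5 + a * a ^ 5 = 0 ∧ mt g.1 = C k * NU 1 a b * Ci k}

/-- the matrices of the elements of the normal closure -/
def Nm (M : M3 k) : Prop := ∃ g ∈ Subgroup.normalClosure (Gs k), mt g.1 = C k * M * Ci k

theorem Nm.inJ {M : M3 k} (h : Nm M) : InJ M := by
  obtain ⟨g, -, hg⟩ := h
  have h1 := of_H0 g
  rw [hg] at h1
  have h2 : Ci k * (C k * M * Ci k) * C k = M := by
    calc Ci k * (C k * M * Ci k) * C k = (Ci k * C k) * M * (Ci k * C k) := by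
          simp only [Matrix.mul_assoc]
      _ = M := by rw [CiC, Matrix.one_mul, Matrix.mul_one]
  rwa [h2] at h1

theorem Nm.mul {M M' : M3 k} (h : Nm M) (h' : Nm M') : Nm (M * M') := by
  obtain ⟨g, hg, e⟩ := h
  obtain ⟨g', hg', e'⟩ := h'
  refine ⟨g * g', Subgroup.mul_mem _ hg hg', ?_⟩
  show mt (g.1 * g'.1) = _
  rw [mt_mul, e, e', CM_mul]

theorem Nm.left {L M : M3 k} (h : Nm L) (h' : Nm (L * M)) : Nm M := by
  obtain ⟨g, hg, e⟩ := h
  obtain ⟨g', hg', e'⟩ := h'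
  refine ⟨g⁻¹ * g', Subgroup.mul_mem _ (Subgroup.inv_mem _ hg) hg', ?_⟩
  show mt (g.1⁻¹ * g'.1) = _
  rw [mt_mul, e', ← CM_mul, ← Matrix.mul_assoc, ← e, mt_inv_mul, Matrix.one_mul]

theorem Nm.all {g : H0 k} (h : Nm (Ci k * mt g.1 * C k)) : g ∈ Subgroup.normalClosure (Gs k) := by
  obtain ⟨g', hg', e⟩ := h
  have h1 : mt g'.1 = mt g.1 := by
    rw [e]
    calc C k * (Ci k * mt g.1 * C k) * Ci k = (C k * Ci k) * mt g.1 * (C k * Ci k) := by
          simp only [Matrix.mul_assoc]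
      _ = mt g.1 := by rw [CCi, Matrix.one_mul, Matrix.mul_one]
  have h2 : g' = g := Subtype.ext (mt_inj h1)
  rwa [← h2]

/-! ### the elements -/

theorem neg5 (x : k) : (-x) ^ 5 = -x ^ 5 := Odd.neg_pow (by decide) x

theorem InJ_NU (hF : ∀ x : k, (x ^ 5) ^ 5 = x) {a b : k} (h : b + b ^ 5 + a * a ^ 5 = 0) :
    InJ (NU 1 a b) := by
  rw [NU_eq]
  refine ⟨?_, ?_⟩
  · rw [m3_ct, J, m3_mul, m3_mul, neg5, hF]
    apply m3_ext <;> first | ring1 | linear_combination h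
  · rw [m3_det]
    ring

theorem Nm_NU (hF : ∀ x : k, (x ^ 5) ^ 5 = x) {a b : k} (h : b + b ^ 5 + a * a ^ 5 = 0) :
    Nm (NU 1 a b) :=
  ⟨mkH _ (InJ_NU hF h), Subgroup.subset_normalClosure ⟨a, b, h, rfl⟩, rfl⟩

/-- the reflection -/
def rr : M3 k := m3 0 1 0 1 0 0 0 0 (-1)

theorem InJ_rr : InJ (rr : M3 k) := by
  refine ⟨?_, ?_⟩
  · rw [rr, m3_ct, J, m3_mul, m3_mul, neg5]
    apply m3_ext <;> ring1
  · rw [rr, m3_det]
    ring

theorem rr_rr : (rr : M3 k) * rr = 1 := by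
  rw [rr, m3_mul, m3_one]
  apply m3_ext <;> ring1

theorem Nm_conj {M : M3 k} (h : Nm M) : Nm (rr * M * rr) := by
  obtain ⟨g, hg, e⟩ := h
  have h1 := Subgroup.normalClosure_normal.conj_mem g hg (mkH rr InJ_rr)
  refine ⟨_, h1, ?_⟩
  show mt ((mkH rr InJ_rr).1 * g.1 * (mkH rr InJ_rr).1⁻¹) = _
  have h2 : mt ((mkH rr InJ_rr : H0 k).1)⁻¹ = C k * rr * Ci k := by
    have h3 : mt (mkH rr InJ_rr : H0 k).1 * (C k * rr * Ci k) = 1 := by
      rw [mt_mkH, CM_mul, rr_rr, Matrix.mul_one, CCi]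
    calc mt ((mkH rr InJ_rr : H0 k).1)⁻¹ =
        mt ((mkH rr InJ_rr : H0 k).1)⁻¹ * (mt (mkH rr InJ_rr : H0 k).1 * (C k * rr * Ci k)) := by
          rw [h3, Matrix.mul_one]
      _ = C k * rr * Ci k := by rw [← Matrix.mul_assoc, mt_inv_mul, Matrix.one_mul]
  rw [mt_mul, mt_mul, h2, e, mt_mkH, CM_mul, CM_mul]

theorem Nm_V (hF : ∀ x : k, (x ^ 5) ^ 5 = x) {c d : k} (h : d + d ^ 5 + c * c ^ 5 = 0) :
    Nm (m3 1 0 0 d 1 (c ^ 5) (-c) 0 1) := by
  have h1 := Nm_conj (Nm_NU hF h)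
  have h2 : rr * NU 1 c d * rr = m3 1 0 0 d 1 (c ^ 5) (-c) 0 1 := by
    rw [NU_eq, rr, m3_mul, m3_mul]
    apply m3_ext <;> ring1
  rwa [h2] at h1

theorem Nm_W (hF : ∀ x : k, (x ^ 5) ^ 5 = x) {a b : k} (hb : b ≠ 0) (h : b + b ^ 5 + a * a ^ 5 = 0) :
    Nm (m3 0 b 0 (1 / b ^ 5) 0 0 0 0 (-b ^ 5 / b)) := by
  obtain ⟨B, hB⟩ : ∃ B, B = b ^ 5 := ⟨_, rfl⟩
  obtain ⟨A, hA⟩ : ∃ A, A = a ^ 5 := ⟨_, rfl⟩
  have hB5 : B ^ 5 = b := by rw [hB, hF]
  have hA5 : A ^ 5 = a := by rw [hA, hF]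
  have hB0 : B ≠ 0 := by rw [hB]; exact pow_ne_zero 5 hb
  rw [← hB, ← hA] at h
  have h1 : Nm (NU 1 a b) := Nm_NU hF (by rw [← hB, ← hA]; exact h)
  have h2 : Nm (m3 1 0 0 (1 / B) 1 ((a / B) ^ 5) (-(a / B)) 0 1) := Nm_V hF (by
    rw [div_pow, div_pow, hB5, ← hA]
    field_simp
    linear_combination h)
  have h3 : Nm (NU 1 (a * b / B) b) := Nm_NU hF (by
    rw [div_pow, mul_pow, hB5, ← hA, ← hB]
    field_simp
    linear_combination h)
  have h4 := (h1.mul h2).mul h3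
  have h5 : NU 1 a b * m3 1 0 0 (1 / B) 1 ((a / B) ^ 5) (-(a / B)) 0 1 * NU 1 (a * b / B) b =
      m3 0 b 0 (1 / b ^ 5) 0 0 0 0 (-b ^ 5 / b) := by
    rw [NU_eq, NU_eq, m3_mul, m3_mul, div_pow, div_pow, mul_pow, hB5, ← hA, ← hB]
    apply m3_ext
    · field_simp
      linear_combination h
    · field_simp
      linear_combination b * h
    · field_simp
      linear_combination -A * h
    · field_simp
      ring
    · field_simp
      linear_combination h
    · field_simp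
      ring
    · field_simp
      ring
    · field_simp
      linear_combination a * h
    · field_simp
      linear_combination h
  rwa [h5] at h4

/-- diagonal matrices -/
theorem Nm_T (hF : ∀ x : k, (x ^ 5) ^ 5 = x) (hN : ∀ t : k, t ^ 5 = t → ∃ a : k, a ^ 6 = t)
    {b0 : k} (hb0 : b0 ≠ 0) (hs : b0 ^ 5 = -b0) {l : k} (hl : l ≠ 0) :
    Nm (m3 l 0 0 0 (1 / l ^ 5) 0 0 0 (l ^ 5 / l)) := by
  obtain ⟨b, hb⟩ : ∃ b, b = l * b0 := ⟨_, rfl⟩
  have hb' : b ≠ 0 := by rw [hb]; exact mul_ne_zero hl hb0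
  obtain ⟨a, ha⟩ := hN (-(b + b ^ 5)) (by rw [neg5, add_pow_char, hF, add_comm])
  have h1 : Nm (m3 0 b 0 (1 / b ^ 5) 0 0 0 0 (-b ^ 5 / b)) := Nm_W hF hb' (a := a) (by
    linear_combination ha)
  have h2 : Nm (m3 0 (-b0) 0 (1 / (-b0) ^ 5) 0 0 0 0 (-(-b0) ^ 5 / (-b0))) :=
    Nm_W hF (neg_ne_zero.mpr hb0) (a := 0) (by
      rw [neg5, hs]
      ring)
  have h3 := h1.mul h2
  have h4 : m3 0 b 0 (1 / b ^ 5) 0 0 0 0 (-b ^ 5 / b) *
      m3 0 (-b0) 0 (1 / (-b0) ^ 5) 0 0 0 0 (-(-b0) ^ 5 / (-b0)) =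
      m3 l 0 0 0 (1 / l ^ 5) 0 0 0 (l ^ 5 / l) := by
    have hb5 : b ^ 5 = -(l ^ 5 * b0) := by
      rw [hb, mul_pow, hs]
      ring
    rw [m3_mul, hb5, neg5, hs, hb]
    apply m3_ext <;> first | ring1 | (field_simp; done) | (field_simp; ring1)
  rwa [h4] at h3

/-- an isotropic vector is moved to a multiple of `w'` -/
theorem kill (hF : ∀ x : k, (x ^ 5) ^ 5 = x) {x y z : k} (hy : y ≠ 0)
    (h : x ^ 5 * y + y ^ 5 * x + z ^ 5 * z = 0) :
    ∃ a b : k, b + b ^ 5 + a * a ^ 5 = 0 ∧ x + b * y - a ^ 5 * z = 0 ∧ a * y + z = 0 := by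
  obtain ⟨X, hX⟩ : ∃ X, X = x ^ 5 := ⟨_, rfl⟩
  obtain ⟨Y, hY⟩ : ∃ Y, Y = y ^ 5 := ⟨_, rfl⟩
  obtain ⟨Z, hZ⟩ : ∃ Z, Z = z ^ 5 := ⟨_, rfl⟩
  have hY5 : Y ^ 5 = y := by rw [hY, hF]
  have hZ5 : Z ^ 5 = z := by rw [hZ, hF]
  have hY0 : Y ≠ 0 := by rw [hY]; exact pow_ne_zero 5 hy
  have ea : (-(z / y)) ^ 5 = -(Z / Y) := by rw [neg5, div_pow, ← hZ, ← hY]
  have eb : (-(x / y) - z * Z / (y * Y)) ^ 5 = -(X / Y) - Z * z / (Y * y) := by
    rw [sub_pow_char, neg5, div_pow, div_pow, mul_pow, mul_pow, hZ5, hY5, ← hX, ← hY, ← hZ]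
  refine ⟨-(z / y), -(x / y) - z * Z / (y * Y), ?_, ?_, ?_⟩
  · rw [ea, eb]
    rw [← hX, ← hY, ← hZ] at h
    field_simp
    linear_combination -h
  · rw [ea]
    field_simp
    ring
  · field_simp
    ring

/-- the relations between the columns -/
theorem cols {a b c d e f g h i : k} (H : InJ (m3 a b c d e f g h i)) :
    (a ^ 5 * d + d ^ 5 * a + g ^ 5 * g = 0) ∧ (a ^ 5 * e + d ^ 5 * b + g ^ 5 * h = 1) ∧
    (a ^ 5 * f + d ^ 5 * c + g ^ 5 * i = 0) ∧ (b ^ 5 * e + e ^ 5 * b + h ^ 5 * h = 0) ∧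
    (b ^ 5 * f + e ^ 5 * c + h ^ 5 * i = 0) ∧
    (a * e * i - a * f * h - b * d * i + b * f * g + c * d * h - c * e * g = 1) := by
  obtain ⟨h1, h2⟩ := H
  rw [m3_ct, J, m3_mul, m3_mul] at h1
  rw [m3_det] at h2
  obtain ⟨e1, e2, e3, e4, e5, e6, e7, e8, e9⟩ := m3_inj h1
  refine ⟨by linear_combination e1, by linear_combination e2, by linear_combination e3,
    by linear_combination e5, by linear_combination e6, h2⟩

/-- stage two -/
theorem stage2 (hF : ∀ x : k, (x ^ 5) ^ 5 = x) (hN : ∀ t : k, t ^ 5 = t → ∃ a : k, a ^ 6 = t)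
    {b0 : k} (hb0 : b0 ≠ 0) (hs : b0 ^ 5 = -b0) {a b c e f h i : k}
    (H : InJ (m3 a b c 0 e f 0 h i)) : Nm (m3 a b c 0 e f 0 h i) := by
  obtain ⟨-, h2, -, h4, -, -⟩ := cols H
  have hae : a ^ 5 * e = 1 := by linear_combination h2
  have he : e ≠ 0 := by
    rintro rfl
    simp at hae
  obtain ⟨al, be, g1, g2, g3⟩ := kill hF he h4
  have hL := Nm_NU hF g1
  refine hL.left ?_
  have e1 : NU 1 al be * m3 a b c 0 e f 0 h i = m3 a 0 (c + be * f - al ^ 5 * i) 0 e f 0 0 (al * f + i) := by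
    rw [NU_eq, m3_mul]
    apply m3_ext <;> first | ring1 | linear_combination g2 | linear_combination g3
  have h5 := hL.inJ.mul H
  rw [e1] at h5 ⊢
  obtain ⟨-, -, h6, -, h7, h8⟩ := cols h5
  have ha : a ≠ 0 := by
    rintro rfl
    simp at hae
  have hf : f = 0 := by
    have h9 : a ^ 5 * f = 0 := by linear_combination h6
    exact (mul_eq_zero.1 h9).resolve_left (pow_ne_zero 5 ha)
  have hc : c + be * f - al ^ 5 * i = 0 := by
    have h9 : e ^ 5 * (c + be * f - al ^ 5 * i) = 0 := by linear_combination h7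
    exact (mul_eq_zero.1 h9).resolve_left (pow_ne_zero 5 he)
  have hee : e = 1 / a ^ 5 := by
    rw [eq_div_iff (pow_ne_zero 5 ha)]
    linear_combination hae
  have hi : al * f + i = a ^ 5 / a := by
    rw [eq_div_iff ha]
    rw [hf] at h8 ⊢
    have h9 : a * e * (al * 0 + i) = 1 := by linear_combination h8
    linear_combination a ^ 5 * h9 - a * (al * 0 + i) * hae
  rw [hc, hf, hee]
  rw [hf] at hi
  rw [hi]
  exact Nm_T hF hN hb0 hs ha

/-- all the matrices -/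
theorem stage1 (hF : ∀ x : k, (x ^ 5) ^ 5 = x) (hN : ∀ t : k, t ^ 5 = t → ∃ a : k, a ^ 6 = t)
    {b0 : k} (hb0 : b0 ≠ 0) (hs : b0 ^ 5 = -b0) (M : M3 k) (H : InJ M) : Nm M := by
  obtain ⟨a, b, c, d, e, f, g, h, i, rfl⟩ := m3_eta M
  obtain ⟨h1, -, -, -, -, -⟩ := cols H
  by_cases hd : d = 0
  · subst hd
    have hg : g = 0 := by
      have h2 : g ^ 6 = 0 := by linear_combination h1
      exact pow_eq_zero_iff (by norm_num) |>.1 h2
    subst hg
    exact stage2 hF hN hb0 hs H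
  · obtain ⟨al, be, g1, g2, g3⟩ := kill hF hd h1
    have hL := Nm_NU hF g1
    have hW : Nm (m3 0 b0 0 (1 / b0 ^ 5) 0 0 0 0 (-b0 ^ 5 / b0)) := Nm_W hF hb0 (a := 0) (by
      rw [hs]
      ring)
    refine hL.left (hW.left ?_)
    have h5 := hW.inJ.mul (hL.inJ.mul H)
    have e1 : m3 0 b0 0 (1 / b0 ^ 5) 0 0 0 0 (-b0 ^ 5 / b0) * (NU 1 al be * m3 a b c d e f g h i) =
        m3 (b0 * d) (b0 * e) (b0 * f)
          0 (1 / b0 ^ 5 * (b + be * e - al ^ 5 * h)) (1 / b0 ^ 5 * (c + be * f - al ^ 5 * i))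
          0 (-b0 ^ 5 / b0 * (al * e + h)) (-b0 ^ 5 / b0 * (al * f + i)) := by
      rw [NU_eq, m3_mul, m3_mul]
      apply m3_ext <;> first | ring1 | linear_combination (1 / b0 ^ 5) * g2 | linear_combination (-b0 ^ 5 / b0) * g3
    rw [e1] at h5 ⊢
    exact stage2 hF hN hb0 hs h5

end

theorem t_GEN : S_GEN := by
  intro k _ _ _ hk
  classical
  have hF : ∀ x : k, (x ^ 5) ^ 5 = x := by
    intro x
    have h := FiniteField.pow_card x
    rw [hk] at h
    rw [← pow_mul]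
    exact h
  obtain ⟨γ, hγ⟩ := IsCyclic.exists_monoid_generator (α := kˣ)
  have hord : orderOf γ = 24 := by
    have h1 : orderOf γ = Nat.card kˣ := orderOf_eq_card_of_forall_mem_powers hγ
    rw [h1, Nat.card_units, Nat.card_eq_fintype_card, hk]
  have hγ0 : (γ : k) ≠ 0 := γ.ne_zero
  have hN : ∀ t : k, t ^ 5 = t → ∃ a : k, a ^ 6 = t := by
    intro t ht
    by_cases h0 : t = 0
    · exact ⟨0, by rw [h0]; norm_num⟩
    · obtain ⟨m, hm⟩ := hγ (Units.mk0 t h0)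
      have hm' : γ ^ m = Units.mk0 t h0 := hm
      have h4 : t ^ 4 = 1 := by
        have h5 : t * (t ^ 4 - 1) = 0 := by linear_combination ht
        exact sub_eq_zero.1 ((mul_eq_zero.1 h5).resolve_left h0)
      have h6 : γ ^ (m * 4) = 1 := by
        rw [pow_mul, hm']
        apply Units.ext
        exact h4
      have h7 : 24 ∣ m * 4 := by
        rw [← hord]
        exact orderOf_dvd_of_pow_eq_one h6
      obtain ⟨j, hj⟩ : 6 ∣ m := by omega
      refine ⟨(γ : k) ^ j, ?_⟩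
      have h8 : ((γ ^ m : kˣ) : k) = t := by rw [hm']; rfl
      rw [← h8, hj, Units.val_pow_eq_pow_val, ← pow_mul]
      congr 1
      ring
  have hb : ∃ b0 : k, b0 ≠ 0 ∧ b0 ^ 5 = -b0 := by
    refine ⟨(γ : k) - (γ : k) ^ 5, ?_, ?_⟩
    · intro h
      have h1 : γ ^ 4 = 1 := by
        apply Units.ext
        rw [Units.val_pow_eq_pow_val, Units.val_one]
        have h5 : (γ : k) * ((γ : k) ^ 4 - 1) = 0 := by linear_combination -h
        exact sub_eq_zero.1 ((mul_eq_zero.1 h5).resolve_left hγ0)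
      have h2 := orderOf_dvd_of_pow_eq_one h1
      rw [hord] at h2
      omega
    · rw [sub_pow_char, hF]
      ring
  obtain ⟨b0, hb0, hs⟩ := hb
  rw [Subgroup.eq_top_iff']
  intro g
  exact Nm.all (stage1 hF hN hb0 hs _ (of_H0 g))

end Pool.Agent.N901.RK
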